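import Pool.Agent.V7H62.DH.Spec

/-!
# (CHEB) Independent elements of a discrete Hardy field form a Chebyshev system near infinity
-/

set_option autoImplicit false

open Filter Finset

namespace Pool.Agent.V7H43.DH

open Pool.Agent.V7H62.DH

/-- (CHEB) -/
theorem t_CHEB : S_CHEB := by
  intro H hH s
  induction s with
  | zero =>
    intro f _ _
    exact ⟨0, fun c hc => by obtain ⟨j, hj, _⟩ := hc; exact absurd hj (Nat.not_lt_zero j)⟩
  | succ s ih =>
    intro f hf hind
    -- u = f 0 has eventually a constant sign
    have hu0 : ¬ ∀ᶠ N in atTop, f 0 N = 0 := by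
      intro h
      have := hind (fun j => if j = 0 then 1 else 0) (by
        filter_upwards [h] with N hN
        simp [Finset.sum_range_succ', hN]) 0 (Nat.succ_pos s)
      simp at this
    obtain ⟨σ, hσ, M, hM⟩ : ∃ σ : ℝ, σ * σ = 1 ∧ ∃ M : ℕ, ∀ N, M ≤ N → 0 < σ * f 0 N := by
      rcases hH.dich (f 0) (hf 0 (Nat.succ_pos s)) with h | h | h
      · exact absurd h hu0
      · obtain ⟨M, hM⟩ := eventually_atTop.mp h
        exact ⟨1, by norm_num, M, fun N hN => by simpa using hM N hN⟩
      · obtain ⟨M, hM⟩ := eventually_atTop.mp h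
        exact ⟨-1, by norm_num, M, fun N hN => by
          have := hM N hN
          linarith⟩
    have hune : ∀ N, M ≤ N → f 0 N ≠ 0 := by
      intro N hN h0
      have := hM N hN
      rw [h0, mul_zero] at this
      exact lt_irrefl _ this
    set u := f 0 with hu
    let g : ℕ → ℕ → ℝ := fun j N => f (j + 1) (N + 1) * (u (N + 1))⁻¹ - f (j + 1) N * (u N)⁻¹
    have hg : ∀ j N, g j N = f (j + 1) (N + 1) * (u (N + 1))⁻¹ - f (j + 1) N * (u N)⁻¹ :=
      fun _ _ => rfl
    have hgH : ∀ j < s, g j ∈ H := by
      intro j hj
      have h1 : (fun N => f (j + 1) N * (u N)⁻¹) ∈ H :=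
        hH.mul _ (hf (j + 1) (by omega)) _ (hH.inv _ (hf 0 (Nat.succ_pos s)))
      have h2 := hH.shift _ h1
      have h3 := hH.mul _ (hH.const (-1)) _ h1
      have h4 := hH.add _ h2 _ h3
      have h5 : g j = (fun N => f (j + 1) (N + 1) * (u (N + 1))⁻¹ +
          (-1 : ℝ) * (f (j + 1) N * (u N)⁻¹)) := by
        funext N; rw [hg]; ring
      rw [h5]; exact h4
    have hgind : ∀ c : ℕ → ℝ, (∀ᶠ N in atTop, ∑ j ∈ range s, c j * g j N = 0) →
        ∀ j < s, c j = 0 := by
      intro c hc
      obtain ⟨L, hL⟩ := eventually_atTop.mp hc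
      let h : ℕ → ℝ := fun N => ∑ j ∈ range s, c j * (f (j + 1) N * (u N)⁻¹)
      have hh : ∀ N, h N = ∑ j ∈ range s, c j * (f (j + 1) N * (u N)⁻¹) := fun _ => rfl
      have hstep : ∀ N, max L M ≤ N → h (N + 1) = h N := by
        intro N hN
        have h1 := hL N (le_trans (le_max_left _ _) hN)
        simp only [hg, mul_sub, Finset.sum_sub_distrib] at h1
        rw [hh, hh]; linarith
      have hconst : ∀ N, max L M ≤ N → h N = h (max L M) := by
        intro N hN
        induction N, hN using Nat.le_induction with
        | base => rfl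
        | succ N hN ih2 => rw [hstep N hN, ih2]
      have hz := hind (fun j => if j = 0 then - h (max L M) else c (j - 1)) (by
        filter_upwards [eventually_ge_atTop (max L M)] with N hN
        rw [Finset.sum_range_succ']
        have hN0 : u N ≠ 0 := hune N (le_trans (le_max_right _ _) hN)
        have h5 := hconst N hN
        have h6 : h N * u N = ∑ j ∈ range s, c j * f (j + 1) N := by
          rw [hh, Finset.sum_mul]
          apply Finset.sum_congr rfl
          intro j _
          field_simp
        simp only [Nat.add_eq_zero_iff, one_ne_zero, and_false, if_false, Nat.add_sub_cancel,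
          if_true]
        rw [← h6, h5, ← hu]; ring)
      intro j hj
      have h7 := hz (j + 1) (by omega)
      simpa using h7
    obtain ⟨N₁, hN₁⟩ := ih g hgH hgind
    refine ⟨max N₁ M, ?_⟩
    intro c hc ε N hε hN0 hNmono halt
    -- all points are ≥ N 0
    have hNge : ∀ i ≤ s + 1, N 0 ≤ N i := by
      intro i hi
      induction i with
      | zero => exact le_rfl
      | succ i ih2 => exact le_trans (ih2 (by omega)) (hNmono i (by omega)).le
    let G : ℕ → ℝ := fun n => c 0 + ∑ j ∈ range s, c (j + 1) * (f (j + 1) n * (u n)⁻¹)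
    have hG : ∀ n, G n = c 0 + ∑ j ∈ range s, c (j + 1) * (f (j + 1) n * (u n)⁻¹) := fun _ => rfl
    have hF : ∀ n, M ≤ n → ∑ j ∈ range (s + 1), c j * f j n = G n * u n := by
      intro n hn
      have hn0 := hune n hn
      rw [Finset.sum_range_succ', hG, add_mul, Finset.sum_mul, add_comm]
      congr 1
      apply Finset.sum_congr rfl
      intro j _
      field_simp
    have hGalt : ∀ i ≤ s + 1, 0 ≤ ε * σ * (-1) ^ i * G (N i) := by
      intro i hi
      have hMi : M ≤ N i := le_trans (le_trans (le_max_right _ _) hN0) (hNge i hi)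
      have h1 := halt i hi
      rw [hF _ hMi] at h1
      have h2 : ε * (-1) ^ i * (G (N i) * u (N i)) =
          (ε * σ * (-1) ^ i * G (N i)) * (σ * u (N i)) := by
        calc ε * (-1) ^ i * (G (N i) * u (N i)) =
            (σ * σ) * (ε * (-1) ^ i * (G (N i) * u (N i))) := by rw [hσ, one_mul]
          _ = _ := by ring
      rw [h2] at h1
      exact nonneg_of_mul_nonneg_left h1 (hM _ hMi)
    have hD : ∀ n, G (n + 1) - G n = ∑ j ∈ range s, c (j + 1) * g j n := by
      intro n
      simp only [hG, hg, mul_sub, Finset.sum_sub_distrib]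
      ring
    by_cases hex : ∃ j < s, c (j + 1) ≠ 0
    · -- choose the points
      have hk : ∀ i, ∃ k, i ≤ s → (N i ≤ k ∧ k < N (i + 1) ∧
          0 ≤ (-(ε * σ)) * (-1) ^ i * ∑ j ∈ range s, c (j + 1) * g j k) := by
        intro i
        by_cases hi : i ≤ s
        · by_contra hcon
          push Not at hcon
          have hlt := hNmono i (by omega)
          have hneg : ∑ k ∈ Finset.Ico (N i) (N (i + 1)),
              ((-(ε * σ)) * (-1) ^ i * ∑ j ∈ range s, c (j + 1) * g j k) < 0 := by
            apply Finset.sum_neg
            · intro k hk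
              rw [Finset.mem_Ico] at hk
              exact (hcon k).2 hk.1 hk.2
            · exact ⟨N i, Finset.mem_Ico.mpr ⟨le_rfl, hlt⟩⟩
          have htel : ∑ k ∈ Finset.Ico (N i) (N (i + 1)), (G (k + 1) - G k) =
              G (N (i + 1)) - G (N i) := Finset.sum_Ico_sub G hlt.le
          rw [← Finset.mul_sum] at hneg
          simp only [← hD] at hneg
          rw [htel] at hneg
          have h1 := hGalt i (by omega)
          have h2 := hGalt (i + 1) (by omega)
          rw [pow_succ] at h2
          nlinarith
        · exact ⟨0, fun h => absurd h hi⟩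
      choose k hk using hk
      refine hN₁ (fun j => c (j + 1)) hex (-(ε * σ)) k ?_ ?_ ?_ ?_
      · intro h0
        have h1 : ε * σ = 0 := by linarith
        rcases mul_eq_zero.mp h1 with h | h
        · exact hε h
        · rw [h, mul_zero] at hσ; exact zero_ne_one hσ
      · exact le_trans (le_trans (le_max_left _ _) hN0) (hk 0 (Nat.zero_le s)).1
      · intro i hi
        exact lt_of_lt_of_le (hk i (by omega)).2.1 (hk (i + 1) (by omega)).1
      · intro i hi
        exact (hk i hi).2.2
    · push Not at hex
      have hGc : ∀ n, G n = c 0 := by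
        intro n
        rw [hG, Finset.sum_eq_zero, add_zero]
        intro j hj
        rw [hex j (Finset.mem_range.mp hj), zero_mul]
      have hc0 : c 0 ≠ 0 := by
        obtain ⟨j, hj, hcj⟩ := hc
        rcases Nat.eq_zero_or_pos j with h | h
        · rw [h] at hcj; exact hcj
        · exfalso
          apply hcj
          have := hex (j - 1) (by omega)
          rwa [Nat.sub_add_cancel h] at this
      have h1 := hGalt 0 (by omega)
      have h2 := hGalt 1 (by omega)
      rw [hGc] at h1 h2
      have h3 : ε * σ * c 0 = 0 := by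
        apply le_antisymm
        · linarith
        · linarith
      rcases mul_eq_zero.mp h3 with h | h
      · rcases mul_eq_zero.mp h with h | h
        · exact hε h
        · rw [h, mul_zero] at hσ; exact zero_ne_one hσ
      · exact hc0 h

end Pool.Agent.V7H43.DH
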