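import Pool.Agent.V7H62.DH.Spec2

/-!
# (TAIL) Convergence of the tails and their recursion
-/

set_option autoImplicit false

open Filter Finset

namespace Pool.Agent.V7H43.DH

open Pool.Agent.V7H62.DH

theorem z_nonneg (w : List ℕ) (N : ℕ) : 0 ≤ z w N := by
  induction w generalizing N with
  | nil => rw [z]; exact zero_le_one
  | cons n w ih =>
    rw [z]
    exact Finset.sum_nonneg fun k _ => div_nonneg (ih k) (by positivity)

theorem z_zero {w : List ℕ} (hw : w ≠ []) : z w 0 = 0 := by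
  cases w with
  | nil => exact absurd rfl hw
  | cons n w => rw [z, Finset.sum_range_zero]

theorem z_succ (n : ℕ) (w : List ℕ) (N : ℕ) :
    z (n :: w) (N + 1) = z (n :: w) N + z w N / ((N : ℝ) + 1) ^ n := by
  rw [z, z, Finset.sum_range_succ]

theorem sum_le (m : ℕ) (hm : 1 ≤ m) (l : List ℕ) (N : ℕ) :
    ∑ k ∈ Finset.range N, z (m :: l) k / ((k : ℝ) + 1) ^ 2 + z (m :: l) N / N ≤
      ∑ k ∈ Finset.range N, z l k / ((k : ℝ) + 1) ^ 2 := by
  induction N with
  | zero => simp
  | succ N ih =>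
    rw [Finset.sum_range_succ, Finset.sum_range_succ]
    have hN : (0 : ℝ) < (N : ℝ) + 1 := by positivity
    have h1 : z l N / ((N : ℝ) + 1) ^ m ≤ z l N / ((N : ℝ) + 1) := by
      refine div_le_div_of_nonneg_left (z_nonneg l N) hN ?_
      calc ((N : ℝ) + 1) = ((N : ℝ) + 1) ^ 1 := (pow_one _).symm
        _ ≤ ((N : ℝ) + 1) ^ m := pow_le_pow_right₀ (by linarith) hm
    have h2 : z (m :: l) N / ((N : ℝ) + 1) ^ 2 + z (m :: l) N / ((N : ℝ) + 1) ≤ z (m :: l) N / N := by
      rcases Nat.eq_zero_or_pos N with h0 | h0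
      · rw [h0, z_zero (by simp)]; simp
      · have hN' : (0 : ℝ) < N := by exact_mod_cast h0
        have h3 : 1 / ((N : ℝ) + 1) ^ 2 + 1 / ((N : ℝ) + 1) ≤ 1 / (N : ℝ) := by
          rw [div_add_div _ _ (by positivity) (by positivity), div_le_div_iff₀ (by positivity) hN']
          nlinarith
        have h4 := mul_le_mul_of_nonneg_left h3 (z_nonneg (m :: l) N)
        calc z (m :: l) N / ((N : ℝ) + 1) ^ 2 + z (m :: l) N / ((N : ℝ) + 1)
            = z (m :: l) N * (1 / ((N : ℝ) + 1) ^ 2 + 1 / ((N : ℝ) + 1)) := by ring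
          _ ≤ z (m :: l) N * (1 / (N : ℝ)) := h4
          _ = z (m :: l) N / N := by ring
    have h3 : z (m :: l) (N + 1) / ((N + 1 : ℕ) : ℝ) ≤
        z (m :: l) N / ((N : ℝ) + 1) + z l N / ((N : ℝ) + 1) ^ 2 := by
      rw [z_succ, add_div]
      push_cast
      have h4 : z l N / ((N : ℝ) + 1) ^ m / ((N : ℝ) + 1) ≤ z l N / ((N : ℝ) + 1) ^ 2 := by
        rw [sq, ← div_div]
        gcongr
      linarith
    linarith

theorem sum_bound (l : List ℕ) (hl : ∀ m ∈ l, 1 ≤ m) (N : ℕ) :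
    ∑ k ∈ Finset.range N, z l k / ((k : ℝ) + 1) ^ 2 ≤ ∑ k ∈ Finset.range N, 1 / ((k : ℝ) + 1) ^ 2 := by
  induction l with
  | nil => simp only [z]; exact le_rfl
  | cons m l ih =>
    have h1 := sum_le m (hl m (by simp)) l N
    have h2 := ih fun m' hm' => hl m' (by simp [hm'])
    have h3 : 0 ≤ z (m :: l) N / N := div_nonneg (z_nonneg _ _) (Nat.cast_nonneg _)
    linarith

theorem summable_z {n : ℕ} (hn : 2 ≤ n) {l : List ℕ} (hl : ∀ m ∈ l, 1 ≤ m) :
    Summable (fun k : ℕ => z l k / ((k : ℝ) + 1) ^ n) := by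
  have h0 : Summable (fun k : ℕ => 1 / ((k : ℝ) + 1) ^ 2) := by
    have h1 : Summable (fun k : ℕ => 1 / (k : ℝ) ^ 2) := Real.summable_one_div_nat_pow.2 (by norm_num)
    have h2 := (summable_nat_add_iff 1).2 h1
    simpa using h2
  refine summable_of_sum_range_le (c := ∑' k : ℕ, 1 / ((k : ℝ) + 1) ^ 2)
    (fun k => div_nonneg (z_nonneg _ _) (by positivity)) fun N => ?_
  have h1 : ∑ k ∈ Finset.range N, z l k / ((k : ℝ) + 1) ^ n ≤
      ∑ k ∈ Finset.range N, z l k / ((k : ℝ) + 1) ^ 2 := by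
    refine Finset.sum_le_sum fun k _ => div_le_div_of_nonneg_left (z_nonneg _ _) (by positivity) ?_
    exact pow_le_pow_right₀ (by have : (0 : ℝ) ≤ k := Nat.cast_nonneg k; linarith) hn
  refine h1.trans ((sum_bound l hl N).trans (h0.sum_le_tsum _ fun k _ => by positivity))

theorem hz_nonneg (N : ℕ) (w : List ℕ) (M : ℕ) : 0 ≤ hz N w M := by
  induction w generalizing M with
  | nil => rw [hz]; exact zero_le_one
  | cons n w ih =>
    rw [hz]
    exact Finset.sum_nonneg fun k _ => div_nonneg (ih k) (by positivity)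

theorem hz_zero (N : ℕ) {w : List ℕ} (hw : w ≠ []) : hz N w 0 = 0 := by
  cases w with
  | nil => exact absurd rfl hw
  | cons n w => rw [hz, Finset.sum_range_zero]

theorem hz_term_le (N : ℕ) (w : List ℕ) (n k : ℕ) (h : hz N w k ≤ z w k) :
    hz N w k / ((N : ℝ) + k + 1) ^ n ≤ z w k / ((k : ℝ) + 1) ^ n := by
  have hN : (0 : ℝ) ≤ N := Nat.cast_nonneg N
  have hk : (0 : ℝ) ≤ k := Nat.cast_nonneg k
  calc hz N w k / ((N : ℝ) + k + 1) ^ n ≤ z w k / ((N : ℝ) + k + 1) ^ n :=
        div_le_div_of_nonneg_right h (by positivity)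
    _ ≤ z w k / ((k : ℝ) + 1) ^ n := by
        refine div_le_div_of_nonneg_left (z_nonneg _ _) (by positivity) ?_
        exact pow_le_pow_left₀ (by positivity) (by linarith) n

theorem hz_le (N : ℕ) (w : List ℕ) (M : ℕ) : hz N w M ≤ z w M := by
  induction w generalizing M with
  | nil => rw [hz, z]
  | cons n w ih =>
    rw [hz, z]
    exact Finset.sum_le_sum fun k _ => hz_term_le N w n k (ih k)

theorem tendsto_hz {w : List ℕ} (hw : Adm w) (N : ℕ) :
    Tendsto (hz N w) atTop (nhds (t w N)) := by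
  cases w with
  | nil =>
    have h1 : hz N [] = fun _ => (1 : ℝ) := by funext M; rw [hz]
    rw [h1, t]
    exact tendsto_const_nhds
  | cons n l =>
    have hn : 2 ≤ n := hw.2 n l rfl
    have hl : ∀ m ∈ l, 1 ≤ m := fun m hm => hw.1 m (by simp [hm])
    have hs : Summable (fun k : ℕ => hz N l k / ((N : ℝ) + k + 1) ^ n) :=
      Summable.of_nonneg_of_le (fun k => div_nonneg (hz_nonneg _ _ _) (by positivity))
        (fun k => hz_term_le N l n k (hz_le N l k)) (summable_z hn hl)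
    have h1 : hz N (n :: l) = fun M => ∑ k ∈ range M, hz N l k / ((N : ℝ) + k + 1) ^ n := by
      funext M; rw [hz]
    rw [h1, t]
    exact hs.hasSum.tendsto_sum_nat

theorem hz_rec (N n : ℕ) (w : List ℕ) (M : ℕ) :
    hz N (w ++ [n]) (M + 1) = hz (N + 1) (w ++ [n]) M + hz (N + 1) w M / ((N : ℝ) + 1) ^ n := by
  induction w generalizing M with
  | nil =>
    rw [List.nil_append, hz, hz, hz, Finset.sum_range_succ']
    congr 1
    · apply Finset.sum_congr rfl
      intro k _
      rw [hz, hz]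
      push_cast
      ring_nf
    · rw [hz]
      simp
  | cons m v ih =>
    rw [List.cons_append, hz, hz, hz, Finset.sum_range_succ', hz_zero N (by simp), zero_div,
      add_zero, Finset.sum_div, ← Finset.sum_add_distrib]
    apply Finset.sum_congr rfl
    intro k _
    rw [ih k]
    have e1 : ((N : ℝ) + ((k + 1 : ℕ) : ℝ) + 1) = (((N + 1 : ℕ) : ℝ) + (k : ℝ) + 1) := by
      push_cast; ring
    rw [e1, add_div]
    congr 1
    rw [div_div, div_div, mul_comm]

/-- (TAIL) -/
theorem t_TAIL : S_TAIL := by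
  refine ⟨fun w hw N => tendsto_hz hw N, ?_⟩
  intro w n hw N
  have hw' : Adm w := by
    refine ⟨fun m hm => hw.1 m (by simp [hm]), ?_⟩
    rintro m v rfl
    exact hw.2 m (v ++ [n]) (by simp)
  have h1 : Tendsto (fun M => hz N (w ++ [n]) (M + 1)) atTop (nhds (t (w ++ [n]) N)) :=
    (tendsto_hz hw N).comp (tendsto_add_atTop_nat 1)
  have h2 : Tendsto (fun M => hz N (w ++ [n]) (M + 1)) atTop
      (nhds (t (w ++ [n]) (N + 1) + t w (N + 1) / ((N : ℝ) + 1) ^ n)) := by
    have h3 := (tendsto_hz hw (N + 1)).add ((tendsto_hz hw' (N + 1)).div_const (((N : ℝ) + 1) ^ n))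
    refine h3.congr fun M => (hz_rec N n w M).symm
  exact tendsto_nhds_unique h1 h2

end Pool.Agent.V7H43.DH
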